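import Mathlib

/-!
# Settled sets for two-person shortest path games

Player `A` controls the vertices in `A`, player `B` those in `B`; `a`, `b` are their local costs.
We grow a set `X` of settled vertices, with a potential `v` for the cost `b`, the distance `D` for
the cost `a`, a successor edge `nx` and a punishing edge `gp` for player `A`.
-/

namespace Pool.Agent.K1H1.BSP

open Set

/-- Common data. -/
structure Dat (V E : Type*) where
  src : E → V
  tgt : E → V
  t : V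
  A : Set V
  B : Set V
  a : E → ℝ
  b : E → ℝ
  cover : ∀ v, v ≠ t → v ∈ A ∨ v ∈ B
  tA : t ∉ A
  tB : t ∉ B
  disj : ∀ v, v ∈ A → v ∉ B
  out : ∀ v, v ≠ t → ∃ e, src e = v
  out_t : ∀ e, src e ≠ t
  posa : ∀ e, 0 < a e
  posb : ∀ e, 0 < b e

variable {V E : Type*} (G : Dat V E)

/-- Invariants of a settled set. -/
structure St (X0 X : Set V) (v D : V → ℝ) (nx gp : V → E) (L K κ : ℝ) : Prop where
  sub : X0 ⊆ X
  tX : G.t ∈ X
  vt : v G.t = 0
  Dt : D G.t = 0
  baseB : ∀ e, G.src e ∉ X0 → G.src e ∈ G.B → G.tgt e ∉ X0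
  baseA : ∀ x, x ∉ X0 → x ∈ G.A → ∃ e, G.src e = x ∧ G.tgt e ∉ X0
  nxs : ∀ x ∈ X, x ≠ G.t → G.src (nx x) = x
  nxm : ∀ x ∈ X, x ≠ G.t → G.tgt (nx x) ∈ X
  Deq : ∀ x ∈ X, x ≠ G.t → D x = G.a (nx x) + D (G.tgt (nx x))
  vB : ∀ x ∈ X, x ∈ G.B → v x = G.b (nx x) + v (G.tgt (nx x))
  vA : ∀ x ∈ X, x ∈ G.A → G.b (nx x) + v (G.tgt (nx x)) ≤ v x
  vBmin : ∀ e, G.src e ∈ X → G.src e ∈ G.B → G.tgt e ∈ X → v (G.src e) ≤ G.b e + v (G.tgt e)
  DAmin : ∀ e, G.src e ∈ X → G.src e ∈ G.A → G.tgt e ∈ X → D (G.src e) ≤ G.a e + D (G.tgt e)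
  gps : ∀ x ∈ X, x ∈ G.A → G.src (gp x) = x
  gpv : ∀ x ∈ X, x ∈ G.A → G.tgt (gp x) ∈ X → v x ≤ G.b (gp x) + v (G.tgt (gp x))
  vL : ∀ x ∈ X, v x ≤ L
  keyB : ∀ e, G.src e ∉ X → G.src e ∈ G.B → G.tgt e ∈ X → L ≤ G.b e + v (G.tgt e)
  keyA : ∀ x, x ∉ X → x ∈ G.A → (∀ e, G.src e = x → G.tgt e ∉ X0 → G.tgt e ∈ X) →
    ∃ e, G.src e = x ∧ G.tgt e ∈ X ∧ G.tgt e ∉ X0 ∧ L ≤ G.b e + v (G.tgt e)
  KX : ∀ x ∈ X, x ∉ X0 → K ≤ v x
  Kb : ∀ e, G.tgt e ∈ X0 → G.src e ∉ X0 → G.b e + v (G.tgt e) ≤ K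
  kD : ∀ x ∈ X, x ∉ X0 → κ ≤ D x
  kexit : ∀ e, G.src e ∉ X0 → G.src e ∈ G.A → G.tgt e ∈ X0 → κ ≤ G.a e + D (G.tgt e)
  leave : ∀ e, G.src e ∈ X → G.src e ∈ G.A → G.tgt e ∉ X → D (G.src e) ≤ κ

theorem St.init (nx gp : V → E) :
    St G ∅ {G.t} (fun _ => 0) (fun _ => 0) nx gp 0 0 0 := by
  have hA : ∀ x, x ∈ ({G.t} : Set V) → x ∉ G.A := by
    intro x hx h
    rw [mem_singleton_iff] at hx
    exact G.tA (hx ▸ h)
  have hB : ∀ x, x ∈ ({G.t} : Set V) → x ∉ G.B := by
    intro x hx h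
    rw [mem_singleton_iff] at hx
    exact G.tB (hx ▸ h)
  refine
    { sub := empty_subset _
      tX := rfl
      vt := rfl
      Dt := rfl
      baseB := fun e _ _ => id
      baseA := fun x _ hx => ?_
      nxs := fun x hx h => (h hx).elim
      nxm := fun x hx h => (h hx).elim
      Deq := fun x hx h => (h hx).elim
      vB := fun x hx h => (hB x hx h).elim
      vA := fun x hx h => (hA x hx h).elim
      vBmin := fun e hx h => (hB _ hx h).elim
      DAmin := fun e hx h => (hA _ hx h).elim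
      gps := fun x hx h => (hA x hx h).elim
      gpv := fun x hx h => (hA x hx h).elim
      vL := fun x _ => le_rfl
      keyB := fun e _ _ _ => by have := G.posb e; linarith
      keyA := fun x _ hx h => ?_
      KX := fun x _ _ => le_rfl
      Kb := fun e h => h.elim
      kD := fun x _ _ => le_rfl
      kexit := fun e _ _ h => h.elim
      leave := fun e hx h => (hA _ hx h).elim }
  · obtain ⟨e, he⟩ := G.out x (fun h => G.tA (h ▸ hx))
    exact ⟨e, he, id⟩
  · obtain ⟨e, he⟩ := G.out x (fun h => G.tA (h ▸ hx))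
    exact ⟨e, he, h e he id, id, by have := G.posb e; linarith⟩

variable {G}
variable {X0 X : Set V} {v D : V → ℝ} {nx gp : V → E} {L K κ : ℝ}

open Classical in
/-- Adding one vertex. -/
theorem St.extend (S : St G X0 X v D nx gp L K κ) (u : V) (hu : u ∉ X) (en em : E) (c : ℝ)
    (h1 : G.src en = u) (h1' : G.tgt en ∈ X)
    (h2B : u ∈ G.B → c = G.b en + v (G.tgt en))
    (h2A : u ∈ G.A → G.b en + v (G.tgt en) ≤ c)
    (h4 : ∀ e, G.src e = u → u ∈ G.A → G.tgt e ∈ X → G.a en + D (G.tgt en) ≤ G.a e + D (G.tgt e))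
    (h5 : u ∈ G.A → G.src em = u)
    (h5' : u ∈ G.A → G.tgt em ∈ X → c ≤ G.b em + v (G.tgt em))
    (h6 : L ≤ c)
    (h7 : ∀ e, G.src e ∉ X → G.src e ∈ G.B → G.tgt e ∈ X → c ≤ G.b e + v (G.tgt e))
    (h8 : ∀ x, x ∉ X → x ∈ G.A → (∀ e, G.src e = x → G.tgt e ∉ X0 → G.tgt e ∈ X) →
      ∃ e, G.src e = x ∧ G.tgt e ∈ X ∧ G.tgt e ∉ X0 ∧ c ≤ G.b e + v (G.tgt e))
    (h9 : K ≤ c) (h10 : κ ≤ G.a en + D (G.tgt en))
    (h11 : ∀ e, G.src e = u → u ∈ G.A → G.tgt e ∉ X → G.a en + D (G.tgt en) ≤ κ) :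
    St G X0 (insert u X) (Function.update v u c)
      (Function.update D u (G.a en + D (G.tgt en))) (Function.update nx u en)
      (Function.update gp u em) c K κ := by
  have hut : u ≠ G.t := fun h => hu (h ▸ S.tX)
  have hu0 : u ∉ X0 := fun h => hu (S.sub h)
  have ne_u : ∀ {x}, x ∈ X → x ≠ u := fun hx h => hu (h ▸ hx)
  have uv : ∀ {x}, x ∈ X → Function.update v u c x = v x := fun hx =>
    Function.update_of_ne (ne_u hx) _ _
  have uD : ∀ {x}, x ∈ X → Function.update D u (G.a en + D (G.tgt en)) x = D x := fun hx =>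
    Function.update_of_ne (ne_u hx) _ _
  have un : ∀ {x}, x ∈ X → Function.update nx u en x = nx x := fun hx =>
    Function.update_of_ne (ne_u hx) _ _
  have ug : ∀ {x}, x ∈ X → Function.update gp u em x = gp x := fun hx =>
    Function.update_of_ne (ne_u hx) _ _
  have sv : Function.update v u c u = c := Function.update_self _ _ _
  have sD : Function.update D u (G.a en + D (G.tgt en)) u = G.a en + D (G.tgt en) :=
    Function.update_self _ _ _
  have sn : Function.update nx u en u = en := Function.update_self _ _ _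
  have sg : Function.update gp u em u = em := Function.update_self _ _ _
  refine
    { sub := S.sub.trans (subset_insert _ _)
      tX := mem_insert_of_mem _ S.tX
      vt := by rw [uv S.tX, S.vt]
      Dt := by rw [uD S.tX, S.Dt]
      baseB := S.baseB
      baseA := S.baseA
      nxs := ?_
      nxm := ?_
      Deq := ?_
      vB := ?_
      vA := ?_
      vBmin := ?_
      DAmin := ?_
      gps := ?_
      gpv := ?_
      vL := ?_
      keyB := ?_
      keyA := ?_
      KX := ?_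
      Kb := ?_
      kD := ?_
      kexit := ?_
      leave := ?_ }
  · rintro x (rfl | hx) hxt
    · rw [sn, h1]
    · rw [un hx, S.nxs x hx hxt]
  · rintro x (rfl | hx) hxt
    · rw [sn]; exact mem_insert_of_mem _ h1'
    · rw [un hx]; exact mem_insert_of_mem _ (S.nxm x hx hxt)
  · rintro x (rfl | hx) hxt
    · rw [sn, sD, uD h1']
    · rw [un hx, uD hx, uD (S.nxm x hx hxt)]; exact S.Deq x hx hxt
  · rintro x (rfl | hx) hxB
    · rw [sn, sv, uv h1']; exact h2B hxB
    · have hxt : x ≠ G.t := fun h => G.tB (h ▸ hxB)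
      rw [un hx, uv hx, uv (S.nxm x hx hxt)]; exact S.vB x hx hxB
  · rintro x (rfl | hx) hxA
    · rw [sn, sv, uv h1']; exact h2A hxA
    · have hxt : x ≠ G.t := fun h => G.tA (h ▸ hxA)
      rw [un hx, uv hx, uv (S.nxm x hx hxt)]; exact S.vA x hx hxA
  · intro e hs hB ht
    have hb := G.posb e
    rcases hs with hs | hs <;> rcases ht with ht | ht
    · rw [hs, ht, sv]; linarith
    · rw [hs, sv, uv ht]
      exact h7 e (hs ▸ hu) hB ht
    · rw [uv hs, ht, sv]
      have := S.vL _ hs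
      linarith
    · rw [uv hs, uv ht]; exact S.vBmin e hs hB ht
  · intro e hs hA ht
    have ha := G.posa e
    rcases hs with hs | hs <;> rcases ht with ht | ht
    · rw [hs, ht, sD]; linarith
    · rw [hs, sD, uD ht]
      exact h4 e hs (hs ▸ hA) ht
    · rw [uD hs, ht, sD]
      have := S.leave e hs hA (ht ▸ hu)
      linarith
    · rw [uD hs, uD ht]; exact S.DAmin e hs hA ht
  · rintro x (rfl | hx) hxA
    · rw [sg]; exact h5 hxA
    · rw [ug hx]; exact S.gps x hx hxA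
  · rintro x (rfl | hx) hxA ht
    · rw [sg] at ht ⊢
      have hb := G.posb em
      rcases ht with ht | ht
      · rw [ht, sv]; linarith
      · rw [sv, uv ht]; exact h5' hxA ht
    · rw [ug hx] at ht ⊢
      have hb := G.posb (gp x)
      rcases ht with ht | ht
      · rw [uv hx, ht, sv]
        have := S.vL _ hx
        linarith
      · rw [uv hx, uv ht]; exact S.gpv x hx hxA ht
  · rintro x (rfl | hx)
    · rw [sv]
    · rw [uv hx]; exact (S.vL x hx).trans h6
  · intro e hs hB ht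
    have hs' : G.src e ∉ X := fun h => hs (mem_insert_of_mem _ h)
    have hb := G.posb e
    rcases ht with ht | ht
    · rw [ht, sv]; linarith
    · rw [uv ht]; exact h7 e hs' hB ht
  · intro x hx hxA hall
    have hx' : x ∉ X := fun h => hx (mem_insert_of_mem _ h)
    by_cases hc : ∀ e, G.src e = x → G.tgt e ∉ X0 → G.tgt e ∈ X
    · obtain ⟨e, he1, he2, he3, he4⟩ := h8 x hx' hxA hc
      exact ⟨e, he1, mem_insert_of_mem _ he2, he3, by rw [uv he2]; exact he4⟩
    · push Not at hc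
      obtain ⟨e, he1, he2, he3⟩ := hc
      have h := hall e he1 he2
      rcases h with h | h
      · refine ⟨e, he1, Or.inl h, he2, ?_⟩
        rw [h, sv]
        have := G.posb e
        linarith
      · exact (he3 h).elim
  · rintro x (rfl | hx) hx0
    · rw [sv]; exact h9
    · rw [uv hx]; exact S.KX x hx hx0
  · intro e ht hs
    rw [uv (S.sub ht)]; exact S.Kb e ht hs
  · rintro x (rfl | hx) hx0
    · rw [sD]; exact h10
    · rw [uD hx]; exact S.kD x hx hx0
  · intro e hs hA ht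
    rw [uD (S.sub ht)]; exact S.kexit e hs hA ht
  · intro e hs hA ht
    have ht' : G.tgt e ∉ X := fun h => ht (mem_insert_of_mem _ h)
    rcases hs with hs | hs
    · rw [hs, sD]; exact h11 e hs (hs ▸ hA) ht'
    · rw [uD hs]; exact S.leave e hs hA ht'

/-- There is no vertex that can be added within the current layer. -/
def Full (G : Dat V E) (X0 X : Set V) : Prop :=
  (∀ e, G.src e ∉ X → G.src e ∈ G.B → G.tgt e ∉ X) ∧
  (∀ x, x ∉ X → x ∈ G.A → ∃ e, G.src e = x ∧ G.tgt e ∉ X0 ∧ G.tgt e ∉ X)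

/-- Extending within a layer. -/
theorem St.step [Finite E] (S : St G X0 X v D nx gp L K κ) (hF : ¬ Full G X0 X) :
    ∃ u, u ∉ X ∧ ∃ v' D' nx' gp' L', St G X0 (insert u X) v' D' nx' gp' L' K κ := by
  classical
  -- candidate edges
  let C : Set E := {e | G.tgt e ∈ X ∧ G.src e ∉ X ∧ (G.src e ∈ G.B ∨
    (G.src e ∈ G.A ∧ G.tgt e ∉ X0 ∧ (∀ e', G.src e' = G.src e → G.tgt e' ∉ X0 → G.tgt e' ∈ X) ∧
      (∀ e', G.src e' = G.src e → G.tgt e' ∉ X0 →
        G.b e' + v (G.tgt e') ≤ G.b e + v (G.tgt e))))}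
  -- every `A`-candidate vertex gives a candidate edge
  have hCA : ∀ x, x ∉ X → x ∈ G.A → (∀ e, G.src e = x → G.tgt e ∉ X0 → G.tgt e ∈ X) →
      ∃ e, G.src e = x ∧ e ∈ C ∧ G.tgt e ∉ X0 := by
    intro x hx hxA hall
    obtain ⟨e0, he0, he0'⟩ := S.baseA x (fun h => hx (S.sub h)) hxA
    obtain ⟨e, ⟨he1, he2⟩, hmax⟩ := Set.exists_max_image
      {e | G.src e = x ∧ G.tgt e ∉ X0} (fun e => G.b e + v (G.tgt e)) (Set.toFinite _)
      ⟨e0, he0, he0'⟩
    refine ⟨e, he1, ⟨hall e he1 he2, he1 ▸ hx, Or.inr ⟨he1 ▸ hxA, he2, ?_, ?_⟩⟩, he2⟩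
    · intro e' h; exact hall e' (h.trans he1)
    · intro e' h h'; exact hmax e' ⟨h.trans he1, h'⟩
  have hne : C.Nonempty := by
    by_contra hne
    apply hF
    constructor
    · intro e h1 h2 h3
      exact hne ⟨e, h3, h1, Or.inl h2⟩
    · intro x hx hxA
      by_contra hcon
      push Not at hcon
      obtain ⟨e, _, he, _⟩ := hCA x hx hxA hcon
      exact hne ⟨e, he⟩
  obtain ⟨es, hes, hmin⟩ := Set.exists_min_image C (fun e => G.b e + v (G.tgt e))
    (Set.toFinite _) hne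
  obtain ⟨hesX, hesu, hescase⟩ := hes
  have h7 : ∀ e, G.src e ∉ X → G.src e ∈ G.B → G.tgt e ∈ X →
      G.b es + v (G.tgt es) ≤ G.b e + v (G.tgt e) := fun e h1 h2 h3 =>
    hmin e ⟨h3, h1, Or.inl h2⟩
  have h8 : ∀ x, x ∉ X → x ∈ G.A → (∀ e, G.src e = x → G.tgt e ∉ X0 → G.tgt e ∈ X) →
      ∃ e, G.src e = x ∧ G.tgt e ∈ X ∧ G.tgt e ∉ X0 ∧
        G.b es + v (G.tgt es) ≤ G.b e + v (G.tgt e) := by
    intro x hx hxA hall
    obtain ⟨e, he1, he2, he3⟩ := hCA x hx hxA hall
    exact ⟨e, he1, he2.1, he3, hmin e he2⟩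
  have hu0 : G.src es ∉ X0 := fun h => hesu (S.sub h)
  rcases hescase with hB | ⟨hA, hes0, hall, hmax⟩
  · -- a vertex of `B`
    have hA : G.src es ∉ G.A := fun h => G.disj _ h hB
    have ht0 : G.tgt es ∉ X0 := S.baseB es hu0 hB
    refine ⟨G.src es, hesu, _, _, _, _, _, S.extend (G.src es) hesu es es
      (G.b es + v (G.tgt es)) rfl hesX (fun _ => rfl) (fun h => (hA h).elim)
      (fun _ _ h => (hA h).elim) (fun h => (hA h).elim) (fun h => (hA h).elim)
      (S.keyB es hesu hB hesX) h7 h8 ?_ ?_ (fun _ _ h => (hA h).elim)⟩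
    · have := S.KX _ hesX ht0
      have := G.posb es
      linarith
    · have := S.kD _ hesX ht0
      have := G.posa es
      linarith
  · -- a vertex of `A`
    have hB : G.src es ∉ G.B := fun h => G.disj _ hA h
    have hallX : ∀ e, G.src e = G.src es → G.tgt e ∈ X := by
      intro e he
      by_cases h0 : G.tgt e ∈ X0
      · exact S.sub h0
      · exact hall e he h0
    obtain ⟨en, hen, henmin⟩ := Set.exists_min_image {e | G.src e = G.src es}
      (fun e => G.a e + D (G.tgt e)) (Set.toFinite _) ⟨es, rfl⟩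
    have hen' : G.src en = G.src es := hen
    refine ⟨G.src es, hesu, _, _, _, _, _, S.extend (G.src es) hesu en es
      (G.b es + v (G.tgt es)) hen' (hallX en hen') (fun h => (hB h).elim) (fun _ => ?_)
      (fun e he _ _ => henmin e he) (fun _ => rfl) (fun _ _ => le_rfl)
      ?_ h7 h8 ?_ ?_ (fun e he _ h => (h (hallX e he)).elim)⟩
    · by_cases h0 : G.tgt en ∈ X0
      · have h1 := S.Kb en h0 (by rw [hen']; exact hu0)
        have h2 := S.KX _ hesX hes0
        have := G.posb es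
        linarith
      · exact hmax en hen' h0
    · obtain ⟨e, he1, _, he3, he4⟩ := S.keyA (G.src es) hesu hA hall
      exact he4.trans (hmax e he1 he3)
    · have := S.KX _ hesX hes0
      have := G.posb es
      linarith
    · by_cases h0 : G.tgt en ∈ X0
      · exact S.kexit en (by rw [hen']; exact hu0) (by rw [hen']; exact hA) h0
      · have := S.kD _ (hallX en hen') h0
        have := G.posa en
        linarith

/-- Starting a new layer. -/
theorem St.layer [Finite V] [Finite E] (S : St G X0 X v D nx gp L K κ) (hF : Full G X0 X)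
    (hex : ∃ e, G.src e ∉ X ∧ G.tgt e ∈ X) :
    ∃ u, u ∉ X ∧ ∃ X0' v' D' nx' gp' L' K' κ', St G X0' (insert u X) v' D' nx' gp' L' K' κ' := by
  classical
  obtain ⟨e1, he1, he1'⟩ := hex
  have hcase : ∀ e, G.src e ∉ X → G.tgt e ∈ X → G.src e ∈ G.A := by
    intro e h1 h2
    rcases G.cover (G.src e) (G.out_t e) with h | h
    · exact h
    · exact (hF.1 e h1 h h2).elim
  obtain ⟨es, ⟨hes1, hes2⟩, hmin⟩ := Set.exists_min_image {e | G.src e ∉ X ∧ G.tgt e ∈ X}
    (fun e => G.a e + D (G.tgt e)) (Set.toFinite _) ⟨e1, he1, he1'⟩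
  have hA : G.src es ∈ G.A := hcase es hes1 hes2
  have hB : G.src es ∉ G.B := fun h => G.disj _ hA h
  -- large constant
  obtain ⟨K', hK1, hK2⟩ : ∃ K' : ℝ, (∀ x, v x ≤ K') ∧ (∀ e, G.b e + v (G.tgt e) ≤ K') := by
    obtain ⟨M1, hM1⟩ := (Set.finite_range v).bddAbove
    obtain ⟨M2, hM2⟩ := (Set.finite_range (fun e => G.b e + v (G.tgt e))).bddAbove
    refine ⟨max M1 M2, fun x => ?_, fun e => ?_⟩
    · exact (hM1 ⟨x, rfl⟩).trans (le_max_left _ _)
    · exact (hM2 ⟨e, rfl⟩).trans (le_max_right _ _)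
  have hκ : κ ≤ G.a es + D (G.tgt es) := by
    by_cases h0 : G.tgt es ∈ X0
    · exact S.kexit es (fun h => hes1 (S.sub h)) hA h0
    · have := S.kD _ hes2 h0
      have := G.posa es
      linarith
  -- rebase
  have S' : St G X X v D nx gp K' K' (G.a es + D (G.tgt es)) :=
    { sub := Subset.rfl
      tX := S.tX
      vt := S.vt
      Dt := S.Dt
      baseB := hF.1
      baseA := fun x hx hxA => by
        obtain ⟨e, h1, _, h3⟩ := hF.2 x hx hxA
        exact ⟨e, h1, h3⟩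
      nxs := S.nxs
      nxm := S.nxm
      Deq := S.Deq
      vB := S.vB
      vA := S.vA
      vBmin := S.vBmin
      DAmin := S.DAmin
      gps := S.gps
      gpv := S.gpv
      vL := fun x _ => hK1 x
      keyB := fun e h1 h2 h3 => (hF.1 e h1 h2 h3).elim
      keyA := fun x hx hxA h => by
        obtain ⟨e, h1, _, h3⟩ := hF.2 x hx hxA
        exact (h3 (h e h1 h3)).elim
      KX := fun x hx hx' => (hx' hx).elim
      Kb := fun e _ _ => hK2 e
      kD := fun x hx hx' => (hx' hx).elim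
      kexit := fun e h1 _ h3 => hmin e ⟨h1, h3⟩
      leave := fun e h1 h2 h3 => (S.leave e h1 h2 h3).trans hκ }
  obtain ⟨em, hem1, _, hem3⟩ := hF.2 _ hes1 hA
  refine ⟨G.src es, hes1, X, _, _, _, _, _, _, _, S'.extend (G.src es) hes1 es em K' rfl hes2
    (fun h => (hB h).elim) (fun _ => hK2 es) (fun e he _ h => hmin e ⟨by rw [he]; exact hes1, h⟩)
    (fun _ => hem1) (fun _ h => (hem3 h).elim) le_rfl
    (fun e h1 h2 h3 => (hF.1 e h1 h2 h3).elim) ?_ le_rfl le_rfl (fun _ _ _ _ => le_rfl)⟩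
  intro x hx hxA h
  obtain ⟨e, h1, _, h3⟩ := hF.2 x hx hxA
  exact (h3 (h e h1 h3)).elim

/-- A final settled set: no edge enters it from outside. -/
theorem exists_final [Finite V] [Finite E] (G : Dat V E) (nx0 : V → E) :
    ∃ X0 X v D nx gp L K κ, St G X0 X v D nx gp L K κ ∧
      ∀ e, G.tgt e ∈ X → G.src e ∈ X := by
  classical
  let F : Set (Set V) := {X | ∃ X0 v D nx gp L K κ, St G X0 X v D nx gp L K κ}
  have hne : F.Nonempty := ⟨{G.t}, _, _, _, _, _, _, _, _, St.init G nx0 nx0⟩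
  obtain ⟨X, hX⟩ := (Set.toFinite F).exists_maximal hne
  obtain ⟨X0, v, D, nx, gp, L, K, κ, S⟩ := hX.prop
  refine ⟨X0, X, v, D, nx, gp, L, K, κ, S, ?_⟩
  by_contra hcon
  push Not at hcon
  obtain ⟨e, he1, he2⟩ := hcon
  have key : ∀ u, u ∉ X → insert u X ∉ F := by
    intro u hu hF
    exact hu (hX.le_of_ge hF (subset_insert u X) (mem_insert u X))
  by_cases hF : Full G X0 X
  · obtain ⟨u, hu, X0', v', D', nx', gp', L', K', κ', S'⟩ := S.layer hF ⟨e, he2, he1⟩
    exact key u hu ⟨X0', v', D', nx', gp', L', K', κ', S'⟩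
  · obtain ⟨u, hu, v', D', nx', gp', L', S'⟩ := S.step hF
    exact key u hu ⟨X0, v', D', nx', gp', L', K, κ, S'⟩

end Pool.Agent.K1H1.BSP
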