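import Mathlib

/-!
# Two-person shortest path games: definitions
-/

namespace Pool.Agent.K1H1.BSP

/-- The data of a two-person shortest path game on a finite directed graph with vertex set `V` and
edge set `E` (parallel edges and loops are allowed): source and target of each edge, the distinct
vertices `s` and `t`, the two players' vertex classes `V1`, `V2` (a partition of all vertices other than
`t`), and the positive local costs `r1`, `r2` of the edges. Every vertex other than `t` has an
outgoing edge, and `t` has none. -/
structure SPGame (V E : Type*) where
  /-- the vertex where an edge starts -/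
  src : E → V
  /-- the vertex where an edge ends -/
  tgt : E → V
  /-- the initial vertex -/
  s : V
  /-- the terminal vertex -/
  t : V
  /-- the vertices controlled by player 1 -/
  V1 : Set V
  /-- the vertices controlled by player 2 -/
  V2 : Set V
  /-- the local cost of player 1 -/
  r1 : E → ℝ
  /-- the local cost of player 2 -/
  r2 : E → ℝ
  /-- the two classes cover exactly the vertices other than `t` -/
  cover : V1 ∪ V2 = {v | v ≠ t}
  /-- the two classes are disjoint -/
  disj : Disjoint V1 V2
  /-- every vertex other than `t` has an outgoing edge -/
  out : ∀ v, v ≠ t → ∃ e, src e = v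
  /-- `t` has no outgoing edge -/
  out_t : ∀ e, src e ≠ t
  /-- the initial and the terminal vertex are distinct -/
  s_ne_t : s ≠ t
  /-- player 1's local costs are positive -/
  pos1 : ∀ e, 0 < r1 e
  /-- player 2's local costs are positive -/
  pos2 : ∀ e, 0 < r2 e

namespace SPGame

variable {V E : Type*} (G : SPGame V E)

/-- The list of edges `p` is a walk from `u` to `v`. -/
def IsWalk : V → List E → V → Prop
  | u, [], v => u = v
  | u, e :: p, v => G.src e = u ∧ IsWalk (G.tgt e) p v

/-- The list of edges `p` is a directed path from `u` to `v`: a walk visiting pairwise different
vertices. -/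
def IsPath (u : V) (p : List E) (v : V) : Prop :=
  G.IsWalk u p v ∧ (u :: p.map G.tgt).Nodup

/-- A strategy of the player controlling the vertices in `W` selects an edge leaving each vertex
of `W` (its values outside `W` are irrelevant). -/
def IsStrategy (W : Set V) (σ : V → E) : Prop :=
  ∀ v ∈ W, G.src (σ v) = v

/-- The edge `e` is present in the graph obtained by deleting, at each vertex of `W`, all
outgoing edges other than the one selected by `σ`. -/
def Kept (W : Set V) (σ : V → E) (e : E) : Prop :=
  G.src e ∈ W → e = σ (G.src e)

/-- The length of a list of edges with respect to the local cost `r`. -/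
def len (r : E → ℝ) (p : List E) : ℝ := (p.map r).sum

/-- `p` is a directed `(s,t)`-path of the graph obtained by deleting, at each vertex of `W`, all
outgoing edges other than the one selected by `σ`. -/
def STPath (W : Set V) (σ : V → E) (p : List E) : Prop :=
  G.IsPath G.s p G.t ∧ ∀ e ∈ p, G.Kept W σ e

/-- The directed `(s,t)`-paths that, for some strategy `σ` of the player controlling `W`, lie in
the restricted graph and have minimum `r`-length among all directed `(s,t)`-paths there. -/
def Best (W : Set V) (r : E → ℝ) : Set (List E) :=
  {p | ∃ σ, G.IsStrategy W σ ∧ G.STPath W σ p ∧ ∀ q, G.STPath W σ q → len r p ≤ len r q}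

/-- The set `P_1` of the problem. -/
def P1 : Set (List E) := G.Best G.V1 G.r2

/-- The set `P_2` of the problem. -/
def P2 : Set (List E) := G.Best G.V2 G.r1

end SPGame

end Pool.Agent.K1H1.BSP
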