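import Pool.Agent.K1H1.BSP.Defs
import Pool.Agent.K1H1.BSP.Core

/-!
# Bi-shortest paths exist
-/

namespace Pool.Agent.K1H1.BSP

open Set

/-- A nonnegative function that vanishes outside `m`, summed over distinct entries. -/
theorem sum_nodup_le {V : Type*} (φ : V → ℝ) (l m : List V) (hl : l.Nodup) (hm : m.Nodup)
    (h0 : ∀ x, 0 ≤ φ x) (hz : ∀ x, x ∉ m → φ x = 0) : (l.map φ).sum ≤ (m.map φ).sum := by
  classical
  rw [← List.sum_toFinset φ hl, ← List.sum_toFinset φ hm]
  have h1 : ∑ x ∈ l.toFinset, φ x = ∑ x ∈ l.toFinset.filter (fun x => x ∈ m), φ x := by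
    symm
    apply Finset.sum_filter_of_ne
    intro x _ hx
    by_contra h
    exact hx (hz x h)
  rw [h1]
  apply Finset.sum_le_sum_of_subset_of_nonneg
  · intro x hx
    rw [Finset.mem_filter] at hx
    exact List.mem_toFinset.2 hx.2
  · intro x _ _
    exact h0 x

namespace SPGame

variable {V E : Type*} (G : SPGame V E)

/-- The associated data: player 1 plays `A`, player 2 plays `B`. -/
def dat : Dat V E where
  src := G.src
  tgt := G.tgt
  t := G.t
  A := G.V1
  B := G.V2
  a := G.r1
  b := G.r2
  cover := fun v hv => by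
    have h : v ∈ G.V1 ∪ G.V2 := by rw [G.cover]; exact hv
    exact h
  tA := fun h => by
    have h' : G.t ∈ G.V1 ∪ G.V2 := Or.inl h
    rw [G.cover] at h'
    exact h' rfl
  tB := fun h => by
    have h' : G.t ∈ G.V1 ∪ G.V2 := Or.inr h
    rw [G.cover] at h'
    exact h' rfl
  disj := fun v h1 h2 => (Set.disjoint_left.1 G.disj) h1 h2
  out := G.out
  out_t := G.out_t
  posa := G.pos1
  posb := G.pos2

variable {G}

theorem walk_src {u : V} {p : List E} {w : V} (h : G.IsWalk u p w) :
    u :: p.map G.tgt = p.map G.src ++ [w] := by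
  induction p generalizing u with
  | nil => simp only [IsWalk] at h; simp [h]
  | cons e p ih =>
    obtain ⟨h1, h2⟩ := h
    have := ih h2
    simp only [List.map_cons, List.cons_append]
    rw [h1, ← this]

variable {X0 X : Set V} {v D : V → ℝ} {nx gp : V → E} {L K κ : ℝ}

theorem walk_mem (S : St G.dat X0 X v D nx gp L K κ) (hc : ∀ e, G.tgt e ∈ X → G.src e ∈ X)
    {u : V} {p : List E} (h : G.IsWalk u p G.t) : u ∈ X := by
  induction p generalizing u with
  | nil => simp only [IsWalk] at h; rw [h]; exact S.tX
  | cons e p ih =>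
    obtain ⟨h1, h2⟩ := h
    rw [← h1]
    exact hc e (ih h2)

/-- Following `nx` one reaches `t`. -/
theorem path_exists [Finite V] (S : St G.dat X0 X v D nx gp L K κ) (w : V) (hw : w ∈ X) :
    ∃ p, G.IsWalk w p G.t ∧ (∀ e ∈ p, G.src e ∈ X ∧ e = nx (G.src e)) ∧
      (∀ e ∈ p, D (G.tgt e) < D w) ∧ (w :: p.map G.tgt).Nodup ∧ len G.r1 p = D w := by
  have wf : WellFounded (fun x y : V => D x < D y) := by
    have : IsTrans V (fun x y : V => D x < D y) := ⟨fun _ _ _ h1 h2 => lt_trans h1 h2⟩
    have : Std.Irrefl (fun x y : V => D x < D y) := ⟨fun _ => lt_irrefl _⟩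
    exact Finite.wellFounded_of_trans_of_irrefl _
  induction w using wf.induction with
  | _ w ih =>
    by_cases hwt : w = G.t
    · refine ⟨[], hwt, by simp, by simp, by simp, ?_⟩
      have : D G.t = 0 := S.Dt
      rw [hwt, this]
      simp [len]
    · have hs : G.src (nx w) = w := S.nxs w hw hwt
      have hm : G.tgt (nx w) ∈ X := S.nxm w hw hwt
      have hD : D w = G.r1 (nx w) + D (G.tgt (nx w)) := S.Deq w hw hwt
      have hpos := G.pos1 (nx w)
      have hlt : D (G.tgt (nx w)) < D w := by linarith
      obtain ⟨p, h1, h2, h3, h4, h5⟩ := ih _ hlt hm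
      refine ⟨nx w :: p, ⟨hs, h1⟩, ?_, ?_, ?_, ?_⟩
      · intro e he
        rcases List.mem_cons.1 he with he | he
        · rw [he, hs]; exact ⟨hw, rfl⟩
        · exact h2 e he
      · intro e he
        rcases List.mem_cons.1 he with he | he
        · rw [he]; exact hlt
        · exact (h3 e he).trans hlt
      · rw [List.map_cons, List.nodup_cons]
        refine ⟨?_, h4⟩
        intro hmem
        rcases List.mem_cons.1 hmem with h | h
        · rw [← h] at hlt; exact lt_irrefl _ hlt
        · obtain ⟨e, he, he'⟩ := List.mem_map.1 h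
          have := (h3 e he).trans hlt
          rw [he'] at this
          exact lt_irrefl _ this
      · simp only [len, List.map_cons, List.sum_cons] at h5 ⊢
        rw [h5, hD]

/-- Lower bound for the cost of player 1 when player 2 follows `nx`. -/
theorem lower_one (S : St G.dat X0 X v D nx gp L K κ) (hc : ∀ e, G.tgt e ∈ X → G.src e ∈ X)
    {u : V} {q : List E} (h : G.IsWalk u q G.t)
    (hk : ∀ e ∈ q, G.src e ∈ G.V2 → G.src e ∈ X → e = nx (G.src e)) :
    D u ≤ len G.r1 q := by
  induction q generalizing u with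
  | nil =>
    simp only [IsWalk] at h
    have : D G.t = 0 := S.Dt
    rw [h, this]; simp [len]
  | cons e q ih =>
    obtain ⟨h1, h2⟩ := h
    have htX : G.tgt e ∈ X := walk_mem S hc h2
    have hsX : G.src e ∈ X := hc e htX
    have ih' := ih h2 (fun e' he' => hk e' (List.mem_cons_of_mem _ he'))
    have hstep : D (G.src e) ≤ G.r1 e + D (G.tgt e) := by
      rcases G.dat.cover (G.src e) (G.out_t e) with hA | hB
      · exact S.DAmin e hsX hA htX
      · have he := hk e (List.mem_cons_self ..) hB hsX
        have hD : D (G.src e) = G.r1 (nx (G.src e)) + D (G.tgt (nx (G.src e))) :=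
          S.Deq (G.src e) hsX (G.out_t e)
        rw [← he] at hD
        exact hD.le
    simp only [len, List.map_cons, List.sum_cons] at ih' ⊢
    rw [← h1]
    linarith

/-- Lower bound for the cost of player 2. -/
theorem lower_two (S : St G.dat X0 X v D nx gp L K κ) (hc : ∀ e, G.tgt e ∈ X → G.src e ∈ X)
    (σ : V → ℝ) (h0 : ∀ x, 0 ≤ σ x) {u : V} {q : List E} (h : G.IsWalk u q G.t)
    (hk : ∀ e ∈ q, G.src e ∈ G.V1 → G.src e ∈ X → G.tgt e ∈ X →
      v (G.src e) ≤ G.r2 e + σ (G.src e) + v (G.tgt e)) :
    v u ≤ len G.r2 q + ((q.map G.src).map σ).sum := by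
  induction q generalizing u with
  | nil =>
    simp only [IsWalk] at h
    have : v G.t = 0 := S.vt
    rw [h, this]; simp [len]
  | cons e q ih =>
    obtain ⟨h1, h2⟩ := h
    have htX : G.tgt e ∈ X := walk_mem S hc h2
    have hsX : G.src e ∈ X := hc e htX
    have ih' := ih h2 (fun e' he' => hk e' (List.mem_cons_of_mem _ he'))
    have hstep : v (G.src e) ≤ G.r2 e + σ (G.src e) + v (G.tgt e) := by
      rcases G.dat.cover (G.src e) (G.out_t e) with hA | hB
      · exact hk e (List.mem_cons_self ..) hA hsX htX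
      · have := S.vBmin e hsX hB htX
        have h3 : v (G.src e) ≤ G.r2 e + v (G.tgt e) := this
        have := h0 (G.src e)
        linarith
    simp only [len, List.map_cons, List.sum_cons] at ih' ⊢
    rw [← h1]
    linarith

/-- The cost of player 2 along the path following `nx`. -/
theorem cost_two (S : St G.dat X0 X v D nx gp L K κ)
    (σ : V → ℝ) {u : V} {q : List E} (h : G.IsWalk u q G.t)
    (hk : ∀ e ∈ q, v (G.src e) = G.r2 e + σ (G.src e) + v (G.tgt e)) :
    v u = len G.r2 q + ((q.map G.src).map σ).sum := by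
  induction q generalizing u with
  | nil =>
    simp only [IsWalk] at h
    have : v G.t = 0 := S.vt
    rw [h, this]; simp [len]
  | cons e q ih =>
    obtain ⟨h1, h2⟩ := h
    have ih' := ih h2 (fun e' he' => hk e' (List.mem_cons_of_mem _ he'))
    have hstep := hk e (List.mem_cons_self ..)
    simp only [len, List.map_cons, List.sum_cons] at ih' ⊢
    rw [← h1]
    linarith

end SPGame

open SPGame in
/-- **Bi-shortest paths exist.** -/
theorem main {V E : Type*} [Finite V] [Finite E] (G : SPGame V E)
    (h : ∃ p, G.IsPath G.s p G.t) : (G.P1 ∩ G.P2).Nonempty := by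
  classical
  obtain ⟨e0, _⟩ := G.out G.s G.s_ne_t
  obtain ⟨X0, X, v, D, nx, gp, L, K, κ, S, hc⟩ := exists_final G.dat (fun _ => e0)
  have hc' : ∀ e, G.tgt e ∈ X → G.src e ∈ X := hc
  obtain ⟨p0, hp0, _⟩ := h
  have hsX : G.s ∈ X := walk_mem S hc' hp0
  obtain ⟨p, h1, h2, h3, h4, h5⟩ := path_exists S G.s hsX
  have hpath : G.IsPath G.s p G.t := ⟨h1, h4⟩
  -- default choice
  have hdef : ∀ x, ∃ e, x ≠ G.t → G.src e = x := by
    intro x
    by_cases hx : x = G.t
    · exact ⟨e0, fun h => (h hx).elim⟩
    · obtain ⟨e, he⟩ := G.out x hx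
      exact ⟨e, fun _ => he⟩
  choose d hd using hdef
  have hV1 : ∀ x ∈ G.V1, x ≠ G.t := fun x hx h => G.dat.tA (show G.t ∈ G.V1 from h ▸ hx)
  have hV2 : ∀ x ∈ G.V2, x ≠ G.t := fun x hx h => G.dat.tB (show G.t ∈ G.V2 from h ▸ hx)
  have nodup_src : ∀ {q : List E}, G.IsPath G.s q G.t → (q.map G.src).Nodup := by
    intro q hq
    have h := hq.2
    rw [walk_src hq.1] at h
    exact (List.nodup_append.1 h).1
  refine ⟨p, ?_, ?_⟩
  · -- player 1's strategy
    let σ1 : V → E := fun x => if x ∈ p.map G.src then nx x else if x ∈ X then gp x else d x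
    let sl : V → ℝ := fun x => if x ∈ p.map G.src then v x - G.r2 (nx x) - v (G.tgt (nx x)) else 0
    have psX : ∀ x ∈ p.map G.src, x ∈ X := by
      intro x hx
      obtain ⟨e, he, he'⟩ := List.mem_map.1 hx
      rw [← he']; exact (h2 e he).1
    have pst : ∀ x ∈ p.map G.src, x ≠ G.t := by
      intro x hx
      obtain ⟨e, he, he'⟩ := List.mem_map.1 hx
      rw [← he']; exact G.out_t e
    have hsl : ∀ x, 0 ≤ sl x := by
      intro x
      by_cases hx : x ∈ p.map G.src
      · have : sl x = v x - G.r2 (nx x) - v (G.tgt (nx x)) := if_pos hx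
        rw [this]
        rcases G.dat.cover x (pst x hx) with hA | hB
        · have h : G.r2 (nx x) + v (G.tgt (nx x)) ≤ v x := S.vA x (psX x hx) hA
          linarith
        · have h : v x = G.r2 (nx x) + v (G.tgt (nx x)) := S.vB x (psX x hx) hB
          linarith
      · have : sl x = 0 := if_neg hx
        rw [this]
    have hslz : ∀ x, x ∉ p.map G.src → sl x = 0 := fun x hx => if_neg hx
    refine ⟨σ1, ?_, ⟨hpath, ?_⟩, ?_⟩
    · intro x hx
      by_cases hx1 : x ∈ p.map G.src
      · have : σ1 x = nx x := if_pos hx1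
        rw [this]
        exact S.nxs x (psX x hx1) (hV1 x hx)
      · by_cases hx2 : x ∈ X
        · have : σ1 x = gp x := by simp only [σ1, if_neg hx1, if_pos hx2]
          rw [this]
          exact S.gps x hx2 hx
        · have : σ1 x = d x := by simp only [σ1, if_neg hx1, if_neg hx2]
          rw [this]
          exact hd x (hV1 x hx)
    · intro e he _
      have : σ1 (G.src e) = nx (G.src e) := if_pos (List.mem_map.2 ⟨e, he, rfl⟩)
      rw [this]
      exact (h2 e he).2
    · intro q hq
      have hq1 : v G.s ≤ len G.r2 q + ((q.map G.src).map sl).sum := by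
        refine lower_two S hc' sl hsl hq.1.1 ?_
        intro e he hA hsX' htX
        have hkept : e = σ1 (G.src e) := hq.2 e he hA
        by_cases hx1 : G.src e ∈ p.map G.src
        · have h1' : σ1 (G.src e) = nx (G.src e) := if_pos hx1
          have h2' : sl (G.src e) =
            v (G.src e) - G.r2 (nx (G.src e)) - v (G.tgt (nx (G.src e))) := if_pos hx1
          rw [h1'] at hkept
          rw [h2', ← hkept]
          linarith
        · have h1' : σ1 (G.src e) = gp (G.src e) := by simp only [σ1, if_neg hx1, if_pos hsX']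
          rw [h1'] at hkept
          have h3' : G.tgt (gp (G.src e)) ∈ X := by rw [← hkept]; exact htX
          have h4' : v (G.src e) ≤ G.r2 (gp (G.src e)) + v (G.tgt (gp (G.src e))) :=
            S.gpv (G.src e) hsX' hA h3'
          rw [← hkept] at h4'
          rw [hslz _ hx1]
          linarith
      have hq2 : v G.s = len G.r2 p + ((p.map G.src).map sl).sum := by
        refine cost_two S sl h1 ?_
        intro e he
        have hx1 : G.src e ∈ p.map G.src := List.mem_map.2 ⟨e, he, rfl⟩
        have h2' : sl (G.src e) =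
          v (G.src e) - G.r2 (nx (G.src e)) - v (G.tgt (nx (G.src e))) := if_pos hx1
        rw [h2', ← (h2 e he).2]
        ring
      have hq3 := sum_nodup_le sl (q.map G.src) (p.map G.src) (nodup_src hq.1) (nodup_src hpath)
        hsl hslz
      linarith
  · -- player 2's strategy
    let σ2 : V → E := fun x => if x ∈ X then nx x else d x
    refine ⟨σ2, ?_, ⟨hpath, ?_⟩, ?_⟩
    · intro x hx
      by_cases hx2 : x ∈ X
      · have : σ2 x = nx x := if_pos hx2
        rw [this]
        exact S.nxs x hx2 (hV2 x hx)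
      · have : σ2 x = d x := if_neg hx2
        rw [this]
        exact hd x (hV2 x hx)
    · intro e he _
      have : σ2 (G.src e) = nx (G.src e) := if_pos (h2 e he).1
      rw [this]
      exact (h2 e he).2
    · intro q hq
      rw [h5]
      refine lower_one S hc' hq.1.1 ?_
      intro e he hB hX
      have hkept : e = σ2 (G.src e) := hq.2 e he hB
      have : σ2 (G.src e) = nx (G.src e) := if_pos hX
      rw [this] at hkept
      exact hkept

end Pool.Agent.K1H1.BSP
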